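import Mathlib

set_option autoImplicit false
set_option linter.unusedSectionVars false

/-!
# Basic Galois theory inside an algebraically closed algebraic extension of characteristic zero
-/

namespace Pool.Agent.W237.RK

open Polynomial IntermediateField

variable {k Ω : Type*} [Field k] [Field Ω] [Algebra k Ω] [IsAlgClosed Ω] [Algebra.IsAlgebraic k Ω]
  [CharZero k]

/-- `σ` fixes `F` pointwise -/
def GFix (F : IntermediateField k Ω) (σ : Ω ≃ₐ[k] Ω) : Prop := ∀ x ∈ F, σ x = x

/-- conjugates of `x` over `F` -/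
def gorb (F : IntermediateField k Ω) (x : Ω) : Set Ω := {y | ∃ σ : Ω ≃ₐ[k] Ω, GFix F σ ∧ σ x = y}

lemma gfix_mono {F F' : IntermediateField k Ω} (h : F ≤ F') {σ : Ω ≃ₐ[k] Ω} (hσ : GFix F' σ) :
    GFix F σ := fun x hx => hσ x (h hx)

lemma gfix_one (F : IntermediateField k Ω) : GFix F (1 : Ω ≃ₐ[k] Ω) := fun _ _ => rfl

lemma gfix_mul {F : IntermediateField k Ω} {σ τ : Ω ≃ₐ[k] Ω} (hσ : GFix F σ) (hτ : GFix F τ) :
    GFix F (σ * τ) := fun x hx => by rw [AlgEquiv.mul_apply, hτ x hx, hσ x hx]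

lemma gfix_inv {F : IntermediateField k Ω} {σ : Ω ≃ₐ[k] Ω} (hσ : GFix F σ) :
    GFix F σ⁻¹ := fun x hx => by
  have h : σ (σ⁻¹ x) = x := AlgEquiv.apply_symm_apply σ x
  have h2 : σ x = x := hσ x hx
  exact σ.injective (h.trans h2.symm)

lemma gfix_pow {F : IntermediateField k Ω} {σ : Ω ≃ₐ[k] Ω} (hσ : GFix F σ) (n : ℕ) :
    GFix F (σ ^ n) := by
  induction n with
  | zero => rw [pow_zero]; exact gfix_one F
  | succ n ih => rw [pow_succ]; exact gfix_mul ih hσ

lemma galg (F : IntermediateField k Ω) : Algebra.IsAlgebraic F Ω :=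
  Algebra.IsAlgebraic.tower_top (K := k) (L := F) (A := Ω)

lemma gnormal (F : IntermediateField k Ω) : Normal F Ω := by
  have := galg F
  have hcl : IsAlgClosure F Ω := ⟨inferInstance, inferInstance⟩
  exact IsAlgClosure.normal F Ω

lemma ggalois (F : IntermediateField k Ω) : IsGalois F Ω := by
  have := galg F
  have := gnormal F
  have : CharZero F := inferInstance
  have : Algebra.IsSeparable F Ω := inferInstance
  exact ⟨⟩

/-- automorphisms over `F` as automorphisms over `k` -/
lemma gfix_restrictScalars (F : IntermediateField k Ω) (σ : Ω ≃ₐ[F] Ω) :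
    GFix F (σ.restrictScalars k) := fun x hx => σ.commutes ⟨x, hx⟩

/-- an automorphism fixing `F` as an automorphism over `F` -/
noncomputable def gover (F : IntermediateField k Ω) (σ : Ω ≃ₐ[k] Ω) (h : GFix F σ) : Ω ≃ₐ[F] Ω :=
  { σ with commutes' := fun x => h x x.2 }

lemma gover_apply (F : IntermediateField k Ω) (σ : Ω ≃ₐ[k] Ω) (h : GFix F σ) (x : Ω) :
    gover F σ h x = σ x := rfl

/-- an element fixed by all automorphisms over `F` is in `F` -/
theorem mem_of_gfix (F : IntermediateField k Ω) (x : Ω)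
    (h : ∀ σ : Ω ≃ₐ[k] Ω, GFix F σ → σ x = x) : x ∈ F := by
  have := ggalois F
  have h1 : x ∈ (⊥ : IntermediateField F Ω) := by
    rw [InfiniteGalois.mem_bot_iff_fixed]
    intro f
    exact h (f.restrictScalars k) (gfix_restrictScalars F f)
  rw [IntermediateField.mem_bot] at h1
  obtain ⟨y, hy⟩ := h1
  rw [← hy]
  exact y.2

/-- roots of the minimal polynomial over `F` are conjugates -/
theorem exists_gfix_of_root (F : IntermediateField k Ω) (x y : Ω)
    (h : aeval y (minpoly F x) = 0) : ∃ σ : Ω ≃ₐ[k] Ω, GFix F σ ∧ σ x = y := by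
  have := galg F
  have := gnormal F
  obtain ⟨σ, hσ⟩ := minpoly.exists_algEquiv_of_root' (K := F) (L := Ω) (x := y) (y := x)
    (Algebra.IsAlgebraic.isAlgebraic x) h
  exact ⟨σ.restrictScalars k, gfix_restrictScalars F σ, hσ⟩

lemma root_of_gfix (F : IntermediateField k Ω) (x : Ω) (σ : Ω ≃ₐ[k] Ω) (hσ : GFix F σ) :
    aeval (σ x) (minpoly F x) = 0 := by
  have h1 : aeval (gover F σ hσ x) (minpoly F x) = gover F σ hσ (aeval x (minpoly F x)) :=
    aeval_algHom_apply (gover F σ hσ : Ω →ₐ[F] Ω) x (minpoly F x)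
  rw [minpoly.aeval, map_zero] at h1
  exact h1

lemma mem_gorb_iff (F : IntermediateField k Ω) (x y : Ω) :
    y ∈ gorb F x ↔ aeval y (minpoly F x) = 0 := by
  constructor
  · rintro ⟨σ, hσ, rfl⟩
    exact root_of_gfix F x σ hσ
  · intro h
    exact exists_gfix_of_root F x y h

lemma gorb_eq_rootSet (F : IntermediateField k Ω) (x : Ω) :
    gorb F x = (minpoly F x).rootSet Ω := by
  have := galg F
  ext y
  rw [mem_gorb_iff, mem_rootSet]
  constructor
  · intro h
    exact ⟨minpoly.ne_zero (Algebra.IsAlgebraic.isAlgebraic (R := F) x).isIntegral, h⟩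
  · exact fun h => h.2

lemma gorb_finite (F : IntermediateField k Ω) (x : Ω) : (gorb F x).Finite := by
  rw [gorb_eq_rootSet]
  exact rootSet_finite _ _

lemma self_mem_gorb (F : IntermediateField k Ω) (x : Ω) : x ∈ gorb F x := ⟨1, gfix_one F, rfl⟩

lemma gorb_ncard_pos (F : IntermediateField k Ω) (x : Ω) : 0 < (gorb F x).ncard :=
  (Set.ncard_pos (gorb_finite F x)).mpr ⟨x, self_mem_gorb F x⟩

/-- the number of conjugates is the degree of the minimal polynomial -/
theorem gorb_ncard (F : IntermediateField k Ω) (x : Ω) :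
    (gorb F x).ncard = (minpoly F x).natDegree := by
  have := galg F
  have hsep : (minpoly F x).Separable := Algebra.IsSeparable.isSeparable F x
  rw [gorb_eq_rootSet, ← Nat.card_coe_set_eq, Nat.card_eq_fintype_card,
    card_rootSet_eq_natDegree hsep (IsAlgClosed.splits _)]

/-- the minimal polynomial is the product of `X - y` over the conjugates `y` -/
theorem minpoly_map_eq_prod (F : IntermediateField k Ω) (x : Ω) :
    (minpoly F x).map (algebraMap F Ω) = ∏ y ∈ (gorb_finite F x).toFinset, (X - C y) := by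
  classical
  have := galg F
  have hsep : (minpoly F x).Separable := Algebra.IsSeparable.isSeparable F x
  have hint : IsIntegral F x := (Algebra.IsAlgebraic.isAlgebraic (R := F) x).isIntegral
  have hmon : ((minpoly F x).map (algebraMap F Ω)).Monic := (minpoly.monic hint).map _
  have hspl : ((minpoly F x).map (algebraMap F Ω)).Splits := IsAlgClosed.splits _
  have h1 := hspl.eq_prod_roots_of_monic hmon
  have hnd : ((minpoly F x).map (algebraMap F Ω)).roots.Nodup :=
    nodup_roots (hsep.map)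
  have h2 : (gorb_finite F x).toFinset.val = ((minpoly F x).map (algebraMap F Ω)).roots := by
    have h3 : (gorb_finite F x).toFinset = ((minpoly F x).map (algebraMap F Ω)).roots.toFinset := by
      ext y
      rw [Set.Finite.mem_toFinset, gorb_eq_rootSet, rootSet_def, Finset.mem_coe]
    rw [h3, Multiset.toFinset_val, Multiset.dedup_eq_self.mpr hnd]
  rw [Finset.prod, h2]
  exact h1

/-- evaluation of the minimal polynomial -/
theorem aeval_minpoly_eq_prod (F : IntermediateField k Ω) (x z : Ω) :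
    aeval z (minpoly F x) = ∏ᶠ y ∈ gorb F x, (z - y) := by
  rw [finprod_mem_eq_finite_toFinset_prod _ (gorb_finite F x), aeval_def, eval₂_eq_eval_map,
    minpoly_map_eq_prod, eval_prod]
  simp

/-- the image of an orbit by an automorphism commuting with `F` -/
lemma gorb_image (F : IntermediateField k Ω) (x : Ω) (τ : Ω ≃ₐ[k] Ω)
    (hτ : ∀ y ∈ F, τ y ∈ F) (hτ' : ∀ y ∈ F, τ⁻¹ y ∈ F) : τ '' gorb F x = gorb F (τ x) := by
  ext y
  constructor
  · rintro ⟨_, ⟨σ, hσ, rfl⟩, rfl⟩
    refine ⟨τ * σ * τ⁻¹, fun z hz => ?_, ?_⟩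
    · show τ (σ (τ⁻¹ z)) = z
      rw [hσ _ (hτ' z hz)]
      exact AlgEquiv.apply_symm_apply τ z
    · show τ (σ (τ⁻¹ (τ x))) = τ (σ x)
      congr 2
      exact AlgEquiv.symm_apply_apply τ x
  · rintro ⟨σ, hσ, rfl⟩
    refine ⟨τ⁻¹ (σ (τ x)), ⟨τ⁻¹ * σ * τ, fun z hz => ?_, rfl⟩, AlgEquiv.apply_symm_apply τ _⟩
    show τ⁻¹ (σ (τ z)) = z
    rw [hσ _ (hτ z hz)]
    exact AlgEquiv.symm_apply_apply τ z

end Pool.Agent.W237.RK
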