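import Mathlib

set_option autoImplicit false

/-!
# Local definitions: subfields of the algebraic closure of `ℚ_p`

Everything happens inside `Om p = PadicAlgCl p`, with its norm (normalised by `‖p‖ = p⁻¹`).
-/

namespace Pool.Agent.W237.RK

open Polynomial

/-- the algebraic closure of `ℚ_p` -/
abbrev Om (p : ℕ) [Fact p.Prime] : Type := PadicAlgCl p

/-- subfields of `Om p` containing `ℚ_p` -/
abbrev LF (p : ℕ) [Fact p.Prime] : Type := IntermediateField ℚ_[p] (PadicAlgCl p)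

/-- automorphisms of `Om p` over `ℚ_p` -/
abbrev LAut (p : ℕ) [Fact p.Prime] : Type := PadicAlgCl p ≃ₐ[ℚ_[p]] PadicAlgCl p

section

variable (p : ℕ) [Fact p.Prime]

/-- the maximal unramified extension of `ℚ_p`, generated by the roots of unity of order prime
to `p` -/
noncomputable def kur : LF p := IntermediateField.adjoin ℚ_[p] {x | ∃ M : ℕ, ¬ p ∣ M ∧ x ^ M = 1}

end

section

variable {p : ℕ} [Fact p.Prime]

/-- `k(μ_N, A^{1/R})` -/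
noncomputable def llev (k : LF p) (A : Finset (Om p)) (N R : ℕ) : LF p :=
  k ⊔ IntermediateField.adjoin ℚ_[p] ({x | x ^ N = 1} ∪ {y | ∃ a ∈ A, y ^ R = a})

/-- `σ` fixes every element of `F` -/
def LFix (F : LF p) (σ : LAut p) : Prop := ∀ x ∈ F, σ x = x

/-- the conjugates of `x` over `F` -/
def lorb (F : LF p) (x : Om p) : Set (Om p) := {y | ∃ σ : LAut p, LFix F σ ∧ σ x = y}

/-- `L` is a finite extension of `F` -/
def FinOver (F L : LF p) : Prop :=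
  ∃ s : Finset (Om p), L = F ⊔ IntermediateField.adjoin ℚ_[p] (s : Set (Om p))

/-- `L` is stable under the automorphisms over `F` -/
def LNormal (F L : LF p) : Prop := ∀ σ : LAut p, LFix F σ → ∀ x ∈ L, σ x ∈ L

/-- `π` is a uniformiser of `L`: the norms of the nonzero elements of `L` are the integral powers
of `‖π‖ < 1` -/
def Unif (L : LF p) (π : Om p) : Prop :=
  π ∈ L ∧ π ≠ 0 ∧ ‖π‖ < 1 ∧ ∀ x ∈ L, x ≠ 0 → ∃ z : ℤ, ‖x‖ = ‖π‖ ^ z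

/-- the norm of the different: `∏ ‖π - y‖` over the conjugates `y ≠ π` of `π` over `F`
(for `π` a uniformiser of `L`, the norm of the different of `L` over `F`) -/
noncomputable def ldiff (F : LF p) (π : Om p) : ℝ := ∏ᶠ y ∈ lorb F π \ {π}, ‖π - y‖

end

/-! ## Statements -/

/-- L2. the norms of nonzero elements of `kur` are the powers of `p` -/
def S_KURVAL : Prop := ∀ (p : ℕ) [Fact p.Prime], ∀ x ∈ kur p, x ≠ 0 → ∃ z : ℤ, ‖x‖ = (p : ℝ) ^ z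

/-- L3. every integral element of `Om p` is congruent to `0` or a root of unity of order prime to
`p` -/
def S_RES : Prop := ∀ (p : ℕ) [Fact p.Prime] (x : Om p), ‖x‖ ≤ 1 →
  ∃ c : Om p, (c = 0 ∨ ∃ M : ℕ, ¬ p ∣ M ∧ c ^ M = 1) ∧ ‖x - c‖ < 1

/-- L0. automorphisms preserve the norm -/
def S_INV : Prop := ∀ (p : ℕ) [Fact p.Prime] (σ : LAut p) (x : Om p), ‖σ x‖ = ‖x‖

/-- L4. structure of the finite extensions of `kur` -/
def S_STRUCT : Prop := ∀ (p : ℕ) [Fact p.Prime] (L : LF p), FinOver (kur p) L →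
  (∃ π, Unif L π) ∧
  (∀ π, Unif L π → ∀ x ∈ L, ‖x‖ ≤ 1 → ∃ P : (Om p)[X],
    (∀ j, P.coeff j ∈ kur p ∧ ‖P.coeff j‖ ≤ 1) ∧ P.eval π = x) ∧
  (∀ k : LF p, kur p ≤ k → k ≤ L → FinOver (kur p) k ∧
    ∀ πk πL, Unif k πk → Unif L πL → ‖πL‖ ^ (lorb k πL).ncard = ‖πk‖)

/-- L5. Herbrand -/
def S_HERB : Prop := ∀ (p : ℕ) [Fact p.Prime] (E L : LF p), kur p ≤ E → E ≤ L →
  FinOver (kur p) L → ∀ πE πL, Unif E πE → Unif L πL → ∀ σ : LAut p, LFix (kur p) σ →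
    ∏ᶠ y ∈ lorb E πL, ‖πL - σ y‖ = ‖πE - σ πE‖

/-- L6. the different is multiplicative in towers -/
def S_TOWER : Prop := ∀ (p : ℕ) [Fact p.Prime] (k E L : LF p), kur p ≤ k → k ≤ E → E ≤ L →
  FinOver (kur p) L → ∀ πE πL, Unif E πE → Unif L πL →
    ldiff k πL = ldiff E πL * ldiff k πE

/-- L7. Fontaine's bound for the different -/
def S_FONT : Prop := ∀ (p : ℕ) [Fact p.Prime] (k L : LF p), kur p ≤ k → k ≤ L →
  FinOver (kur p) L → LNormal k L → ∀ πL, Unif L πL → ∀ t : ℕ, 2 ≤ t →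
    (∀ β : Om p, ∏ᶠ y ∈ lorb k πL, ‖β - y‖ ≤ ((p : ℝ) ^ t)⁻¹ →
      L ≤ k ⊔ IntermediateField.adjoin ℚ_[p] {β}) →
    ((p : ℝ) ^ (t + 1))⁻¹ ≤ ldiff k πL

/-- L8. Krasner: the hypothesis of L7 holds for radical extensions -/
def S_KRAS : Prop := ∀ (p : ℕ) [Fact p.Prime] (k : LF p), kur p ≤ k → FinOver (kur p) k →
  ∀ (A : Finset (Om p)) (V : ℕ), (∀ a ∈ A, a ∈ k ∧ a ≠ 0 ∧ ‖a‖ ≤ 1 ∧ ((p : ℝ) ^ V)⁻¹ ≤ ‖a‖) →
  ∀ (i n M : ℕ), n ≤ i → ¬ p ∣ M → ∀ πL, Unif (llev k A (p ^ i) (p ^ n * M)) πL →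
    ∀ β : Om p, ∏ᶠ y ∈ lorb k πL, ‖β - y‖ ≤ ((p : ℝ) ^ (i + 2 + V))⁻¹ →
      llev k A (p ^ i) (p ^ n * M) ≤ k ⊔ IntermediateField.adjoin ℚ_[p] {β}

/-- L9. lower bound for the different of the cyclotomic extensions -/
def S_CYC : Prop := ∀ (p : ℕ) [Fact p.Prime] (k : LF p), kur p ≤ k → FinOver (kur p) k →
  ∃ C : ℕ, ∀ (m : ℕ) (π : Om p),
    Unif (k ⊔ IntermediateField.adjoin ℚ_[p] {x | x ^ (p ^ m) = 1}) π →
    ldiff k π * (p : ℝ) ^ m ≤ (p : ℝ) ^ C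

/-- L11. the local main theorem -/
def S_LLT : Prop := ∀ (p : ℕ) [Fact p.Prime] (k : LF p), kur p ≤ k → FinOver (kur p) k →
  ∀ A : Finset (Om p), (∀ a ∈ A, a ∈ k ∧ a ≠ 0 ∧ ‖a‖ ≤ 1) → ∀ J : ℕ, ∃ B : ℕ, 0 < B ∧
  ∀ m i n M : ℕ, B ≤ m → n ≤ i → m ≤ i → i ≤ m + J → ¬ p ∣ M → ∃ σ : LAut p,
    (∀ x ∈ llev k A (p ^ (m - 1)) (p ^ (min n (m - B)) * M), σ x = x) ∧
    (∀ ζ : Om p, IsPrimitiveRoot ζ (p ^ m) → σ ζ ≠ ζ) ∧
    (∀ x ∈ llev k A (p ^ i) (p ^ n * M), ‖x‖ ≤ 1 → ‖σ x - x‖ ^ B ≤ (p : ℝ)⁻¹)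

end Pool.Agent.W237.RK
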