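import Mathlib
import Pool.Agent.H54.G.W237.RK.Gal

set_option autoImplicit false
set_option linter.unusedVariables false

/-!
# The finite levels are finite-dimensional; structure of the roots of elements of `Γ`
-/

namespace Pool.Agent.W237.RK

open Polynomial IntermediateField
open Pool.Agent.H58P (Qb ht)

/-- elements of a finitely generated group are monomials in the generators -/
lemma exists_gens (Γ : Subgroup Qbˣ) (hΓ : Γ.FG) : ∃ (s : ℕ) (g : Fin s → Qbˣ),
    (∀ j, g j ∈ Γ) ∧ ∀ x ∈ Γ, ∃ e : Fin s → ℤ, x = ∏ j, g j ^ e j := by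
  obtain ⟨S, hS⟩ := hΓ
  refine ⟨S.card, fun j => (S.equivFin.symm j : Qbˣ), ?_, ?_⟩
  · intro j
    rw [← hS]
    exact Subgroup.subset_closure (S.equivFin.symm j).2
  · intro x hx
    rw [← hS] at hx
    have h1 : ∃ f : S → ℤ, ∏ i : S, (i : Qbˣ) ^ f i = x := by
      have h2 : x ∈ Subgroup.closure (Set.range fun i : S => (i : Qbˣ)) := by
        have e : (Set.range fun i : S => (i : Qbˣ)) = (S : Set Qbˣ) := by
          ext y; simp
        rw [e]; exact hx
      obtain ⟨f, hf⟩ := Subgroup.mem_closure_range_iff.mp h2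
      refine ⟨f, ?_⟩
      rw [hf, Finsupp.prod_fintype]
      intro i
      exact zpow_zero _
    obtain ⟨f, hf⟩ := h1
    refine ⟨fun j => f (S.equivFin.symm j), ?_⟩
    rw [← hf]
    exact (Fintype.prod_equiv S.equivFin.symm _ _ (fun j => rfl)).symm

/-- the `R`-th roots of the elements of `Γ` -/
lemma exists_roots (Γ : Subgroup Qbˣ) (s : ℕ) (g : Fin s → Qbˣ)
    (hg : ∀ x ∈ Γ, ∃ e : Fin s → ℤ, x = ∏ j, g j ^ e j) (R : ℕ) (hR : 0 < R) :
    ∃ z : Fin s → Qbˣ, (∀ j, z j ^ R = g j) ∧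
      ∀ y : Qb, (∃ x ∈ Γ, y ^ R = (x : Qb)) → ∃ (e : Fin s → ℤ) (ζ : Qb), ζ ^ R = 1 ∧
        y = ζ * ((∏ j, z j ^ e j : Qbˣ) : Qb) := by
  have h1 : ∀ j, ∃ z : Qbˣ, z ^ R = g j := by
    intro j
    obtain ⟨z, hz⟩ := IsAlgClosed.exists_pow_nat_eq (g j : Qb) hR
    have hz0 : z ≠ 0 := by
      rintro rfl
      rw [zero_pow hR.ne'] at hz
      exact (g j).ne_zero hz.symm
    exact ⟨Units.mk0 z hz0, Units.ext (by simpa using hz)⟩
  choose z hz using h1
  refine ⟨z, hz, ?_⟩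
  rintro y ⟨x, hx, hy⟩
  obtain ⟨e, he⟩ := hg x hx
  have h2 : ((∏ j, z j ^ e j : Qbˣ) : Qb) ^ R = (x : Qb) := by
    rw [← Units.val_pow_eq_pow_val, he]
    congr 1
    rw [← Finset.prod_pow]
    apply Finset.prod_congr rfl
    intro j _
    rw [← hz j, ← zpow_natCast, ← zpow_mul, mul_comm, zpow_mul, zpow_natCast]
  refine ⟨e, y / ((∏ j, z j ^ e j : Qbˣ) : Qb), ?_, ?_⟩
  · rw [div_pow, hy, h2, div_self]
    exact Units.ne_zero x
  · rw [div_mul_cancel₀]
    exact Units.ne_zero _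

lemma finite_roots (N : ℕ) (hN : 0 < N) : {x : Qb | x ^ N = 1}.Finite := by
  classical
  apply (nthRoots N (1 : Qb)).toFinset.finite_toSet.subset
  intro x hx
  rw [Finset.mem_coe, Multiset.mem_toFinset, mem_nthRoots hN]
  exact hx

/-- the finite levels are finite-dimensional -/
theorem finiteDimensional_lev (K : GF) (hK : FiniteDimensional ℚ K) (Γ : Subgroup Qbˣ)
    (hΓ : Γ.FG) (N R : ℕ) (hN : 0 < N) (hR : 0 < R) : FiniteDimensional ℚ (lev K Γ N R) := by
  obtain ⟨s, g, hgΓ, hg⟩ := exists_gens Γ hΓ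
  obtain ⟨z, hz, hzy⟩ := exists_roots Γ s g hg R hR
  set T : Set Qb := {x : Qb | x ^ N = 1} ∪ {x : Qb | x ^ R = 1} ∪ Set.range (fun j => (z j : Qb))
    with hT
  have hTf : T.Finite := ((finite_roots N hN).union (finite_roots R hR)).union (Set.finite_range _)
  have : Finite T := hTf
  have h1 : FiniteDimensional ℚ (adjoin ℚ T) :=
    finiteDimensional_adjoin fun x _ => Pool.Agent.H58P.qb_isIntegral x
  have h2 : lev K Γ N R ≤ K ⊔ adjoin ℚ T := by
    have hTle : T ⊆ (K ⊔ adjoin ℚ T : GF) := fun x hx =>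
      (le_sup_right : adjoin ℚ T ≤ K ⊔ adjoin ℚ T) (subset_adjoin _ _ hx)
    apply lev_le le_sup_left
    · intro x hx
      exact hTle (Or.inl (Or.inl hx))
    · intro y hy
      obtain ⟨e, ζ, hζ, rfl⟩ := hzy y hy
      refine mul_mem (hTle (Or.inl (Or.inr hζ))) ?_
      rw [Units.coe_prod]
      apply prod_mem
      intro j _
      rw [Units.val_zpow_eq_zpow_val]
      exact zpow_mem (hTle (Or.inr ⟨j, rfl⟩)) _
  have h3 : FiniteDimensional ℚ (K ⊔ adjoin ℚ T : GF) := finiteDimensional_sup K (adjoin ℚ T)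
  exact FiniteDimensional.of_injective (inclusion h2).toLinearMap (inclusion h2).injective

end Pool.Agent.W237.RK
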