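import Mathlib
import Pool.Agent.H54.G.W237.RK.LevFin
import Pool.Agent.H54.G.H58R.Zeta

set_option autoImplicit false
set_option linter.unusedVariables false

/-!
# Actions on roots of unity and on radicals
-/

namespace Pool.Agent.W237.RK

open Polynomial IntermediateField
open Pool.Agent.H58P (Qb ht)

/-- the field on which two automorphisms agree -/
def eqField (σ τ : Aut) : GF where
  carrier := {x | σ x = τ x}
  mul_mem' := by
    intro x y hx hy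
    show σ (x * y) = τ (x * y)
    rw [map_mul, map_mul, show σ x = τ x from hx, show σ y = τ y from hy]
  add_mem' := by
    intro x y hx hy
    show σ (x + y) = τ (x + y)
    rw [map_add, map_add, show σ x = τ x from hx, show σ y = τ y from hy]
  algebraMap_mem' := by
    intro r
    show σ _ = τ _
    rw [AlgEquiv.commutes, AlgEquiv.commutes]
  inv_mem' := by
    intro x hx
    show σ x⁻¹ = τ x⁻¹
    rw [map_inv₀, map_inv₀, show σ x = τ x from hx]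

lemma agree_lev {K : GF} {Γ : Subgroup Qbˣ} {N R : ℕ} {σ τ : Aut} (hK : ∀ x ∈ K, σ x = τ x)
    (h1 : ∀ x : Qb, x ^ N = 1 → σ x = τ x)
    (h2 : ∀ y : Qb, (∃ g ∈ Γ, y ^ R = (g : Qb)) → σ y = τ y) : AgreeOn (lev K Γ N R) σ τ := by
  have h : lev K Γ N R ≤ eqField σ τ := lev_le hK h1 h2
  exact fun x hx => h hx

lemma fix_lev_iff {K : GF} {Γ : Subgroup Qbˣ} {N R : ℕ} {σ : Aut} (hK : Fix K σ)
    (h1 : ∀ x : Qb, x ^ N = 1 → σ x = x)
    (h2 : ∀ y : Qb, (∃ g ∈ Γ, y ^ R = (g : Qb)) → σ y = y) : Fix (lev K Γ N R) σ :=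
  agree_lev (σ := σ) (τ := 1) hK h1 h2

/-- an automorphism acts on the roots of unity of order dividing `N` by a power map -/
lemma exists_pow_act (σ : Aut) (N : ℕ) (hN : 0 < N) : ∃ a : ℕ, ∀ x : Qb, x ^ N = 1 → σ x = x ^ a := by
  obtain ⟨ζ, hζ⟩ := Pool.Agent.H58R.exists_prim N hN
  have : NeZero N := ⟨hN.ne'⟩
  have h1 : (σ ζ) ^ N = 1 := by rw [← map_pow, hζ.pow_eq_one, map_one]
  obtain ⟨a, -, ha⟩ := hζ.eq_pow_of_pow_eq_one h1
  refine ⟨a, fun x hx => ?_⟩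
  obtain ⟨i, -, rfl⟩ := hζ.eq_pow_of_pow_eq_one hx
  rw [map_pow, ← ha, ← pow_mul, ← pow_mul, mul_comm]

lemma tor_comm {x : Qb} (hx : Tor x) (σ τ : Aut) : σ (τ x) = τ (σ x) := by
  obtain ⟨n, hn, hx⟩ := hx
  obtain ⟨a, ha⟩ := exists_pow_act σ n hn
  obtain ⟨b, hb⟩ := exists_pow_act τ n hn
  rw [ha x hx, hb x hx, map_pow, map_pow, ha x hx, hb x hx, ← pow_mul, ← pow_mul, mul_comm]

/-- an automorphism of conductor exactly `p ^ m` -/
lemma exists_unit_act (p : ℕ) (hp : p.Prime) (m n : ℕ) (hm : 2 ≤ m) (hmn : m ≤ n) (σ : Aut)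
    (h1 : ∀ x : Qb, x ^ (p ^ (m - 1)) = 1 → σ x = x)
    (h2 : ∀ ζ : Qb, IsPrimitiveRoot ζ (p ^ m) → σ ζ ≠ ζ) :
    ∃ u : ℕ, ¬ p ∣ u ∧ ∀ x : Qb, x ^ (p ^ n) = 1 → σ x = x * (x ^ (p ^ (m - 1))) ^ u := by
  have hpp : 0 < p ^ n := pow_pos hp.pos n
  obtain ⟨a, ha⟩ := exists_pow_act σ (p ^ n) hpp
  obtain ⟨ζ, hζ⟩ := Pool.Agent.H58R.exists_prim (p ^ n) hpp
  have hA : IsPrimitiveRoot (ζ ^ (p ^ (n - (m - 1)))) (p ^ (m - 1)) := by
    apply hζ.pow hpp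
    rw [← pow_add]; congr 1; omega
  have hB : IsPrimitiveRoot (ζ ^ (p ^ (n - m))) (p ^ m) := by
    apply hζ.pow hpp
    rw [← pow_add]; congr 1; omega
  -- `a = 1` modulo `p ^ (m - 1)`
  have e1 : (ζ ^ (p ^ (n - (m - 1)))) ^ a = ζ ^ (p ^ (n - (m - 1))) := by
    have h3 := h1 _ hA.pow_eq_one
    rw [ha] at h3
    · exact h3
    · rw [← pow_mul, mul_comm, pow_mul, hζ.pow_eq_one, one_pow]
  have e2 : (ζ ^ (p ^ (n - m))) ^ a ≠ ζ ^ (p ^ (n - m)) := by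
    have h3 := h2 _ hB
    rw [ha] at h3
    · exact h3
    · rw [← pow_mul, mul_comm, pow_mul, hζ.pow_eq_one, one_pow]
  have hm1 : 2 ≤ p ^ (m - 1) := by
    calc 2 ≤ p := hp.two_le
      _ = p ^ 1 := (pow_one p).symm
      _ ≤ p ^ (m - 1) := Nat.pow_le_pow_right hp.pos (by omega)
  have hA0 : ζ ^ (p ^ (n - (m - 1))) ≠ 0 := hA.ne_zero (by omega)
  have ha1 : 1 ≤ a := by
    by_contra hcon
    have h0 : a = 0 := by omega
    rw [h0, pow_zero] at e1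
    rw [← e1] at hA
    have := hA.unique IsPrimitiveRoot.one
    omega
  obtain ⟨u, hu⟩ : p ^ (m - 1) ∣ a - 1 := by
    apply hA.dvd_of_pow_eq_one
    have h3 : ζ ^ (p ^ (n - (m - 1))) * (ζ ^ (p ^ (n - (m - 1)))) ^ (a - 1) =
        ζ ^ (p ^ (n - (m - 1))) * 1 := by
      rw [← pow_succ', Nat.sub_add_cancel ha1, e1, mul_one]
    exact mul_left_cancel₀ hA0 h3
  have hau : a = 1 + p ^ (m - 1) * u := by omega
  refine ⟨u, ?_, ?_⟩
  · rintro ⟨v, rfl⟩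
    apply e2
    have e3 : a = 1 + p ^ m * v := by
      rw [hau]
      congr 1
      rw [← mul_assoc]
      congr 1
      rw [← pow_succ]
      congr 1
      omega
    rw [e3, pow_add, pow_one, pow_mul, hB.pow_eq_one, one_pow, mul_one]
  · intro x hx
    rw [ha x hx, hau, pow_add, pow_one, pow_mul]

/-- inverse of `-u` modulo `p` -/
lemma exists_neg_inv (p : ℕ) (hp : p.Prime) (u : ℕ) (hu : ¬ p ∣ u) :
    ∃ v : ℕ, p ∣ u * v + 1 := by
  have hcop : Nat.Coprime u p := ((Nat.Prime.coprime_iff_not_dvd hp).mpr hu).symm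
  obtain ⟨v, -, hv⟩ := Nat.exists_mul_mod_eq_one_of_coprime hcop hp.one_lt
  refine ⟨v * (p - 1), ?_⟩
  have h1 : u * v ≡ 1 [MOD p] := by
    show (u * v) % p = 1 % p
    rw [hv, Nat.mod_eq_of_lt hp.one_lt]
  have h2 : u * (v * (p - 1)) + 1 ≡ 1 * (p - 1) + 1 [MOD p] := by
    rw [← mul_assoc]
    exact (h1.mul_right _).add_right 1
  have h3 : 1 * (p - 1) + 1 = p := by have := hp.pos; omega
  rw [h3] at h2
  exact (Nat.modEq_zero_iff_dvd).mp (h2.trans (Nat.modEq_zero_iff_dvd.mpr dvd_rfl))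

end Pool.Agent.W237.RK
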