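import Mathlib
import Pool.Agent.H54.G.W237.RK.Act

set_option autoImplicit false
set_option linter.unusedVariables false

/-!
# The Kummer step: conjugates of `σ₀`
-/

namespace Pool.Agent.W237.RK

open Polynomial IntermediateField
open Pool.Agent.H58P (Qb ht)

/-- the set of `R`-th roots of elements of `Γ` -/
noncomputable def radS (Γ : Subgroup Qbˣ) (R : ℕ) : Subgroup Qbˣ := Γ.comap (powMonoidHom R)

lemma mem_radS {Γ : Subgroup Qbˣ} {R : ℕ} {y : Qbˣ} : y ∈ radS Γ R ↔ y ^ R ∈ Γ := Iff.rfl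

lemma radS_iff {Γ : Subgroup Qbˣ} {R : ℕ} (y : Qbˣ) :
    y ∈ radS Γ R ↔ ∃ g ∈ Γ, (y : Qb) ^ R = (g : Qb) := by
  rw [mem_radS]
  constructor
  · intro h
    exact ⟨_, h, (Units.val_pow_eq_pow_val y R).symm⟩
  · rintro ⟨g, hg, h⟩
    have : y ^ R = g := Units.ext (by rw [Units.val_pow_eq_pow_val, h])
    rwa [this]

lemma rad_ne_zero {Γ : Subgroup Qbˣ} {R : ℕ} (hR : 0 < R) {y : Qb}
    (h : ∃ g ∈ Γ, y ^ R = (g : Qb)) : y ≠ 0 := by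
  obtain ⟨g, -, h⟩ := h
  rintro rfl
  rw [zero_pow hR.ne'] at h
  exact g.ne_zero h.symm

/-- the ratio `σ y / y` for a radical -/
lemma rad_ratio {K : GF} {Γ : Subgroup Qbˣ} (hΓ : ∀ g ∈ Γ, (g : Qb) ∈ K) {R : ℕ} {y : Qb}
    (h : ∃ g ∈ Γ, y ^ R = (g : Qb)) {σ : Aut} (hσ : Fix K σ) : (σ y / y) ^ R = 1 := by
  obtain ⟨g, hg, h⟩ := h
  rw [div_pow, ← map_pow, h, hσ _ (hΓ g hg), div_self (Units.ne_zero g)]

/-- the number of conjugates of `σ₀` on `E` -/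
lemma conj_count (K : GF) (Γ : Subgroup Qbˣ) (hΓ : ∀ g ∈ Γ, (g : Qb) ∈ K)
    (s : ℕ) (g : Fin s → Qbˣ) (hgΓ : ∀ j, g j ∈ Γ)
    (hg : ∀ x ∈ Γ, ∃ e : Fin s → ℤ, x = ∏ j, g j ^ e j)
    (N R Q R₀ N₀ : ℕ) (hN : 0 < N) (hQ : 0 < Q) (hR₀ : 0 < R₀) (hR : R = R₀ * Q) (σ₀ : Aut)
    (hσ₀ : Fix (lev K Γ N₀ R₀) σ₀) :
    ∃ S : Finset Aut, S.card ≤ Q ^ s ∧ ∀ τ : Aut, Fix K τ →
      ∃ t ∈ S, AgreeOn (lev K Γ N R) (τ * σ₀ * τ⁻¹) t := by
  classical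
  have hRpos : 0 < R := by rw [hR]; exact Nat.mul_pos hR₀ hQ
  obtain ⟨z, hz, hzy⟩ := exists_roots Γ s g hg R hRpos
  have hzQ : ∀ j, ∃ x ∈ Γ, ((z j : Qb) ^ Q) ^ R₀ = (x : Qb) := by
    intro j
    refine ⟨g j, hgΓ j, ?_⟩
    rw [← pow_mul, mul_comm, ← hR, ← Units.val_pow_eq_pow_val, hz]
  have hnorm := normal_lev K Γ hΓ N₀ R₀
  -- the ratio lies in `μ_Q`
  have hratio : ∀ τ : Aut, Fix K τ → ∀ j, ((τ * σ₀ * τ⁻¹) (z j : Qb) / σ₀ (z j : Qb)) ^ Q = 1 := by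
    intro τ hτ j
    have hmem : (z j : Qb) ^ Q ∈ lev K Γ N₀ R₀ := rad_mem_lev K Γ (hzQ j)
    have h1 : (τ * σ₀ * τ⁻¹) ((z j : Qb) ^ Q) = (z j : Qb) ^ Q := fix_conj hnorm hτ hσ₀ _ hmem
    have h2 : σ₀ ((z j : Qb) ^ Q) = (z j : Qb) ^ Q := hσ₀ _ hmem
    rw [div_pow, ← map_pow, ← map_pow, h1, h2, div_self]
    exact pow_ne_zero _ (Units.ne_zero _)
  set W : Finset Qb := (finite_roots Q hQ).toFinset with hW
  have hWcard : W.card ≤ Q := by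
    have h1 : W ⊆ (nthRoots Q (1 : Qb)).toFinset := by
      intro x hx
      rw [hW, Set.Finite.mem_toFinset] at hx
      rw [Multiset.mem_toFinset, mem_nthRoots hQ]
      exact hx
    exact (Finset.card_le_card h1).trans ((Multiset.toFinset_card_le _).trans (card_nthRoots Q 1))
  set V : Finset (Fin s → Qb) := Fintype.piFinset fun _ => W with hV
  have hVcard : V.card ≤ Q ^ s := by
    rw [hV, Fintype.card_piFinset_const]
    exact Nat.pow_le_pow_left hWcard s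
  set Ψ : Aut → Fin s → Qb := fun τ j => (τ * σ₀ * τ⁻¹) (z j : Qb) / σ₀ (z j : Qb) with hΨ
  set pick : (Fin s → Qb) → Aut := fun v =>
    if h : ∃ τ : Aut, Fix K τ ∧ Ψ τ = v then h.choose * σ₀ * h.choose⁻¹ else 1 with hpick
  refine ⟨V.image pick, Finset.card_image_le.trans hVcard, ?_⟩
  intro τ hτ
  have hΨV : Ψ τ ∈ V := by
    rw [hV, Fintype.mem_piFinset]
    intro j
    rw [hW, Set.Finite.mem_toFinset]
    exact hratio τ hτ j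
  refine ⟨pick (Ψ τ), Finset.mem_image_of_mem _ hΨV, ?_⟩
  have hex : ∃ τ' : Aut, Fix K τ' ∧ Ψ τ' = Ψ τ := ⟨τ, hτ, rfl⟩
  have hp : pick (Ψ τ) = hex.choose * σ₀ * hex.choose⁻¹ := by
    simp only [hpick]
    rw [dif_pos hex]
  rw [hp]
  obtain ⟨hτ', hΨ'⟩ := hex.choose_spec
  set τ' := hex.choose with hτ'def
  have hσ₀K : Fix K σ₀ := fix_mono (le_lev K Γ N₀ R₀) hσ₀
  have hA : Fix K (τ * σ₀ * τ⁻¹) := fix_mul (fix_mul hτ hσ₀K) (fix_inv hτ)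
  have hB : Fix K (τ' * σ₀ * τ'⁻¹) := fix_mul (fix_mul hτ' hσ₀K) (fix_inv hτ')
  have htor : ∀ (τ : Aut) (x : Qb), Tor x → (τ * σ₀ * τ⁻¹) x = σ₀ x := by
    intro τ x hx
    show τ (σ₀ (τ⁻¹ x)) = σ₀ x
    rw [← tor_comm hx τ⁻¹ σ₀, apply_inv_self]
  have hzz : ∀ j, (τ * σ₀ * τ⁻¹) (z j : Qb) = (τ' * σ₀ * τ'⁻¹) (z j : Qb) := by
    intro j
    have h1 : (τ' * σ₀ * τ'⁻¹) (z j : Qb) / σ₀ (z j : Qb) =
        (τ * σ₀ * τ⁻¹) (z j : Qb) / σ₀ (z j : Qb) := congrFun hΨ' j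
    have h0 : σ₀ (z j : Qb) ≠ 0 := (map_ne_zero σ₀).mpr (Units.ne_zero _)
    exact ((div_left_inj' h0).mp h1).symm
  apply agree_lev
  · intro x hx
    rw [hA x hx, hB x hx]
  · intro x hx
    have hx' : Tor x := ⟨N, hN, hx⟩
    rw [htor τ x hx', htor τ' x hx']
  · intro y hy
    obtain ⟨e, ζ, hζ, rfl⟩ := hzy y hy
    have hζ' : Tor ζ := ⟨R, hRpos, hζ⟩
    rw [map_mul, map_mul, htor τ ζ hζ', htor τ' ζ hζ', Units.coe_prod, map_prod, map_prod]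
    congr 1
    apply Finset.prod_congr rfl
    intro j _
    rw [Units.val_zpow_eq_zpow_val, map_zpow₀, map_zpow₀, hzz j]

/-- `σ₀ w` is conjugate to `σ₀` on `E` -/
lemma conj_exists (p : ℕ) [Fact p.Prime] (K : GF) (Γ : Subgroup Qbˣ)
    (hΓ : ∀ g ∈ Γ, (g : Qb) ∈ K) (c n M N : ℕ) (hc : c + 2 ≤ n) (hM : 0 < M) (hN : 0 < N)
    (hKI : ∀ w : Aut, Fix (levInf K Γ (p ^ (n - 1) * M)) w →
      ∃ τ : Aut, Fix (kinf K) τ ∧ ∀ y : Qb, (∃ g ∈ Γ, y ^ (p ^ n * M) = (g : Qb)) →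
        (τ y / y) ^ (p ^ n) = 1 ∧ (τ y / y) ^ (p ^ (n - 1 - c)) = w y / y)
    (σ₀ : Aut) (hσ₀K : Fix K σ₀)
    (h1 : ∀ x : Qb, x ^ (p ^ (n - c - 1)) = 1 → σ₀ x = x)
    (h2 : ∀ ζ : Qb, IsPrimitiveRoot ζ (p ^ (n - c)) → σ₀ ζ ≠ ζ)
    (w : Aut) (hw : Fix (levInf K Γ (p ^ (n - 1) * M)) w) :
    ∃ τ : Aut, Fix K τ ∧ AgreeOn (lev K Γ N (p ^ n * M)) (τ * σ₀ * τ⁻¹) (σ₀ * w) := by
  have hp : p.Prime := Fact.out
  obtain ⟨u, hu, hact⟩ := exists_unit_act p hp (n - c) n (by omega) (by omega) σ₀ h1 h2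
  obtain ⟨v, hv⟩ := exists_neg_inv p hp u hu
  have hRpos : 0 < p ^ n * M := Nat.mul_pos (pow_pos hp.pos n) hM
  obtain ⟨τ, hτ, hτy⟩ := hKI (w ^ v) (fix_pow hw v)
  have hτK : Fix K τ := fix_mono (le_kinf K) hτ
  have hwK : Fix K w := fix_mono (le_levInf K Γ _) hw
  have hτtor : ∀ x, Tor x → τ x = x := fun x hx => hτ x (tor_mem_kinf K hx)
  have hwtor : ∀ x, Tor x → w x = x := fun x hx => hw x (tor_mem_levInf K Γ hx)
  have hconjtor : ∀ x, Tor x → (τ * σ₀ * τ⁻¹) x = σ₀ x := by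
    intro x hx
    show τ (σ₀ (τ⁻¹ x)) = σ₀ x
    rw [← tor_comm hx τ⁻¹ σ₀, apply_inv_self]
  refine ⟨τ, hτK, agree_lev ?_ ?_ ?_⟩
  · intro x hx
    rw [fix_mul (fix_mul hτK hσ₀K) (fix_inv hτK) x hx, fix_mul hσ₀K hwK x hx]
  · intro x hx
    have hx' : Tor x := ⟨N, hN, hx⟩
    rw [hconjtor x hx', AlgEquiv.mul_apply, hwtor x hx']
  · intro y hy
    have hy0 : y ≠ 0 := rad_ne_zero hRpos hy
    obtain ⟨k1, k2⟩ := hτy y hy
    set χ := τ y / y with hχ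
    set ω := w y / y with hω
    have hχtor : Tor χ := ⟨_, pow_pos hp.pos n, k1⟩
    have hωp : ω ^ p = 1 := by
      -- `y ^ p` lies in the lower level
      have hyp : y ^ p ∈ levInf K Γ (p ^ (n - 1) * M) := by
        apply rad_mem_levInf
        obtain ⟨g, hg, h⟩ := hy
        refine ⟨g, hg, ?_⟩
        rw [← pow_mul, ← h]
        congr 1
        rw [← mul_assoc, ← pow_succ']
        congr 2
        omega
      rw [hω, div_pow, ← map_pow, hw _ hyp, div_self (pow_ne_zero _ hy0)]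
    have hωtor : Tor ω := ⟨p, hp.pos, hωp⟩
    have hwy : w y = ω * y := by rw [hω]; field_simp
    have hτyy : τ y = χ * y := by rw [hχ]; field_simp
    -- powers of `w`
    have hwv : ∀ j : ℕ, (w ^ j) y = ω ^ j * y := by
      intro j
      induction j with
      | zero => simp
      | succ j ih =>
        rw [pow_succ', AlgEquiv.mul_apply, ih, map_mul, map_pow, hwtor ω hωtor, hwy]
        ring
    have k3 : χ ^ (p ^ (n - 1 - c)) = ω ^ v := by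
      rw [k2, hwv v, mul_div_assoc, div_self hy0, mul_one]
    -- `σ₀ y = θ y`
    have hθ : Tor (σ₀ y / y) := ⟨_, hRpos, rad_ratio hΓ hy hσ₀K⟩
    set θ := σ₀ y / y with hθdef
    have hσy : σ₀ y = θ * y := by rw [hθdef]; field_simp
    have hτinv : τ⁻¹ y = χ⁻¹ * y := by
      have h3 : τ (χ⁻¹ * y) = y := by
        rw [map_mul, hτtor _ hχtor.inv, hτyy, ← mul_assoc, inv_mul_cancel₀ hχtor.ne_zero, one_mul]
      rw [← inv_apply_self τ (χ⁻¹ * y), h3]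
    have hL : (τ * σ₀ * τ⁻¹) y = (σ₀ χ)⁻¹ * χ * σ₀ y := by
      show τ (σ₀ (τ⁻¹ y)) = _
      rw [hτinv, map_mul, map_inv₀, hσy, map_mul, map_mul, map_inv₀, hτtor _ (hχtor.map σ₀),
        hτtor _ hθ, hτyy]
      ring
    have hσω : σ₀ ω = ω := by
      apply h1
      have : p ∣ p ^ (n - c - 1) := dvd_pow_self p (by omega)
      obtain ⟨t, ht⟩ := this
      rw [ht, pow_mul, hωp, one_pow]
    have hRr : (σ₀ * w) y = ω * σ₀ y := by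
      rw [AlgEquiv.mul_apply, hwy, map_mul, hσω]
    rw [hL, hRr]
    congr 1
    -- `χ / σ₀ χ = ω`
    have h4 : σ₀ χ = χ * (χ ^ (p ^ (n - c - 1))) ^ u := hact χ k1
    have e5 : n - 1 - c = n - c - 1 := by omega
    rw [e5] at k3
    rw [k3] at h4
    have h6 : (ω ^ v) ^ u * ω = 1 := by
      rw [← pow_mul, ← pow_succ, mul_comm v u]
      obtain ⟨t, ht⟩ := hv
      rw [ht, pow_mul, hωp, one_pow]
    rw [h4]
    have hω0 := hωtor.ne_zero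
    have hχ0 := hχtor.ne_zero
    have h7 : (ω ^ v) ^ u ≠ 0 := pow_ne_zero _ (pow_ne_zero _ hω0)
    rw [mul_inv, mul_comm χ⁻¹, mul_assoc, inv_mul_cancel₀ hχ0, mul_one]
    exact (eq_inv_of_mul_eq_one_right h6).symm

end Pool.Agent.W237.RK
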