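import Mathlib
import Pool.Agent.H54.G.W237.RK.LevFin
import Pool.Agent.H54.G.W402.RK.FIN

set_option autoImplicit false
set_option linter.unusedVariables false

/-!
# The last step: the box principle
-/

namespace Pool.Agent.W237.RK

open Polynomial IntermediateField
open Pool.Agent.H58P (Qb ht)
open Pool.Agent.H58B (ht_pow)
open Pool.Agent.H58R (ht_nonneg ht_mul_le ht_inv ht_zpow ht_prod_le)
open Pool.Agent.W402.RK (rep dirichlet ht_prod_zpow)

/-- from the Bogomolov property over `K₁(μ_∞)` to the division group -/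
theorem box_step (K₁ : GF) (Γ : Subgroup Qbˣ) (hΓfg : Γ.FG) (hΓ : ∀ g ∈ Γ, (g : Qb) ∈ K₁) (D : ℕ)
    (c : ℝ) (hc : 0 < c)
    (hB : ∀ y : Qb, y ≠ 0 → (orb (kinf K₁) y).ncard ≤ D → ¬ Tor y → c ≤ ht y) :
    ∃ δ : ℝ, 0 < δ ∧ ∀ α γ : Qb, α ≠ 0 → γ ≠ 0 → DivG Γ γ → (orb (kinf K₁) (α / γ)).ncard ≤ D →
      ht α < δ → DivG Γ α := by
  classical
  obtain ⟨S, hS⟩ := hΓfg
  set H : ℝ := ∑ i ∈ S, ht (i : Qb) with hH
  have hH0 : 0 ≤ H := Finset.sum_nonneg (fun i _ => ht_nonneg _)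
  obtain ⟨T₀, hT₀⟩ := exists_nat_gt (H / (c / 2))
  set T := T₀ + 1 with hT
  have hTpos : 0 < T := Nat.succ_pos _
  have hTc : H < c / 2 * T := by
    rw [div_lt_iff₀ (by positivity)] at hT₀
    rw [hT]; push_cast; nlinarith
  have hSΓ : ∀ i ∈ S, i ∈ Γ := fun i hi => by rw [← hS]; exact Subgroup.subset_closure hi
  have hTS : (0 : ℝ) < (T : ℝ) ^ S.card := by
    have : (0 : ℝ) < T := by exact_mod_cast hTpos
    positivity
  refine ⟨c / 2 / (T : ℝ) ^ S.card, by positivity, ?_⟩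
  rintro α γ hα hγ0 ⟨N, hN, g, hg, hγN⟩ horb hht
  rw [← hS] at hg
  obtain ⟨a, ha⟩ := rep S hg
  obtain ⟨l, hl0, hlT, b, hb⟩ := dirichlet S T N hTpos hN a
  set u : Qbˣ := Units.mk0 γ hγ0 with hu
  set v : Qbˣ := Units.mk0 α hα with hv
  have huN : u ^ N = g := Units.ext (by rw [Units.val_pow_eq_pow_val]; exact hγN)
  set h : Qbˣ := ∏ i ∈ S, i ^ b i with hh
  have hhΓ : h ∈ Γ := Subgroup.prod_mem _ (fun i hi => Subgroup.zpow_mem _ (hSΓ i hi) _)
  -- the test element `z = (α / γ) ^ l * h`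
  set z : Qbˣ := (v / u) ^ l * h with hz
  have hzN : z ^ N = v ^ (l * N) * ∏ i ∈ S, i ^ (N * b i - l * a i) := by
    have e1 : (u ^ l) ^ N = ∏ i ∈ S, i ^ (l * a i) := by
      rw [← pow_mul, mul_comm l N, pow_mul, huN, ha, ← Finset.prod_pow]
      apply Finset.prod_congr rfl
      intro i _
      rw [← zpow_natCast, ← zpow_mul, mul_comm]
    have e2 : h ^ N = ∏ i ∈ S, i ^ (N * b i) := by
      rw [hh, ← Finset.prod_pow]
      apply Finset.prod_congr rfl
      intro i _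
      rw [← zpow_natCast, ← zpow_mul, mul_comm]
    rw [hz, div_pow, mul_pow, div_pow, e1, e2, ← pow_mul, div_mul_eq_mul_div, mul_div_assoc,
      ← Finset.prod_div_distrib]
    congr 1
    apply Finset.prod_congr rfl
    intro i _
    rw [zpow_sub, div_eq_mul_inv]
  have hzval : (z : Qb) = ((α / γ) ^ l) / ((h⁻¹ : Qbˣ) : Qb) := by
    rw [hz, Units.val_mul, Units.val_pow_eq_pow_val, Units.val_div_eq_div_val,
      Units.val_inv_eq_inv_val, div_inv_eq_mul]
    rfl
  have hhK : ((h⁻¹ : Qbˣ) : Qb) ∈ kinf K₁ := le_kinf K₁ (hΓ _ (Subgroup.inv_mem _ hhΓ))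
  have horbz : (orb (kinf K₁) (z : Qb)).ncard ≤ D := by
    rw [hzval, orb_div_ncard (Units.ne_zero _) hhK]
    exact (orb_pow_ncard _ l).trans horb
  have hTor : Tor (z : Qb) := by
    by_contra hcon
    have h1 := hB z z.ne_zero horbz hcon
    have hT0 : (0 : ℝ) < T := by exact_mod_cast hTpos
    have hN0 : (0 : ℝ) < N := by exact_mod_cast hN
    have h2 : (N : ℝ) * ht (z : Qb) ≤ (l * N : ℕ) * ht α +
        ∑ i ∈ S, |((N * b i - l * a i : ℤ) : ℝ)| * ht (i : Qb) := by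
      rw [← ht_pow, ← Units.val_pow_eq_pow_val, hzN, Units.val_mul, Units.coe_prod]
      refine (ht_mul_le _ _).trans ?_
      simp only [Units.val_zpow_eq_zpow_val, Units.val_pow_eq_pow_val]
      have e3 : ht ((v : Qb) ^ (l * N)) = (l * N : ℕ) * ht α := by
        rw [ht_pow]
        rfl
      rw [e3]
      have e4 := ht_prod_zpow S (fun i => N * b i - l * a i)
      linarith
    have h3 : ∑ i ∈ S, |((N * b i - l * a i : ℤ) : ℝ)| * ht (i : Qb) ≤ (N / T) * H := by
      rw [hH, Finset.mul_sum]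
      apply Finset.sum_le_sum
      intro i hi
      apply mul_le_mul_of_nonneg_right _ (ht_nonneg _)
      rw [le_div_iff₀ hT0]
      have := (hb i hi).le
      rw [abs_sub_comm] at this
      have h4 : ((|N * b i - l * a i| * T : ℤ) : ℝ) ≤ ((N : ℤ) : ℝ) := by exact_mod_cast this
      push_cast at h4 ⊢
      exact h4
    have hl : (l : ℝ) ≤ (T : ℝ) ^ S.card := by exact_mod_cast hlT
    have h5 : (l * N : ℕ) * ht α ≤ N * (c / 2) := by
      push_cast
      have h6 : (l : ℝ) * ht α ≤ c / 2 := by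
        calc (l : ℝ) * ht α ≤ (T : ℝ) ^ S.card * ht α :=
              mul_le_mul_of_nonneg_right hl (ht_nonneg α)
          _ ≤ (T : ℝ) ^ S.card * (c / 2 / (T : ℝ) ^ S.card) :=
              mul_le_mul_of_nonneg_left hht.le hTS.le
          _ = c / 2 := by field_simp
      nlinarith
    have h7 : (N / T : ℝ) * H < N * (c / 2) := by
      calc (N / T : ℝ) * H = N * (H / T) := by ring
        _ < N * (c / 2) := by
          apply mul_lt_mul_of_pos_left _ hN0
          rwa [div_lt_iff₀ hT0]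
    have h8 : (N : ℝ) * ht (z : Qb) < N * c := by
      have : (N : ℝ) * c = N * (c / 2) + N * (c / 2) := by ring
      linarith
    have h9 := lt_of_mul_lt_mul_left h8 hN0.le
    linarith
  obtain ⟨m, hm, hzm⟩ := hTor
  refine ⟨l * N * m, Nat.mul_pos (Nat.mul_pos hl0 hN) hm,
    ((∏ i ∈ S, i ^ (N * b i - l * a i)) ^ m)⁻¹, ?_, ?_⟩
  · exact Subgroup.inv_mem _ (Subgroup.pow_mem _ (Subgroup.prod_mem _
      (fun i hi => Subgroup.zpow_mem _ (hSΓ i hi) _)) _)
  · have h1 : (v ^ (l * N) * ∏ i ∈ S, i ^ (N * b i - l * a i)) ^ m = 1 := by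
      rw [← hzN, ← pow_mul, mul_comm, pow_mul]
      have : z ^ m = 1 := Units.ext (by simpa using hzm)
      rw [this, one_pow]
    rw [mul_pow, ← pow_mul] at h1
    have h2 := eq_inv_of_mul_eq_one_left h1
    rw [← h2, Units.val_pow_eq_pow_val]
    rfl

end Pool.Agent.W237.RK
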