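import Pool.Agent.H54.G.W327.RK.L2
import Pool.Agent.H54.G.W327.RK.L5
import Pool.Agent.H54.G.W327.RK.L6
import Pool.Agent.H54.G.W327.RK.L9
import Pool.Agent.H54.G.W327.RK.FROB
import Pool.Agent.H54.G.W571.RK.L3
import Pool.Agent.H54.G.W571.RK.L4
import Pool.Agent.H54.G.W803.RK.L7
import Pool.Agent.H54.G.W803.RK.L8
import Pool.Agent.H54.G.W133.RK.L11
import Pool.Agent.H54.G.W402.RK.REST
import Pool.Agent.H54.G.W402.RK.ROOTS
import Pool.Agent.H54.G.W402.RK.POW
import Pool.Agent.H54.G.W402.RK.KD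
import Pool.Agent.H54.G.W402.RK.FIN
import Pool.Agent.H54.G.W402.RK.BOG
import Pool.Agent.H54.G.W369.RK.CONJ
import Pool.Agent.H54.G.W369.RK.GL
import Pool.Agent.H54.G.W369.RK.CS
import Pool.Agent.H54.G.W848.RK.HT
import Pool.Agent.H54.G.W669.RK.GLF
import Pool.Agent.H54.G.W340.RK.LT
import Pool.Agent.H54.G.W540.RK.KI
import Pool.Agent.H54.G.W237.RK.KS
import Pool.Agent.H54.G.W237.RK.Main

set_option autoImplicit false

/-! # Assembly -/

namespace Pool.Agent.W237.RK

theorem kurval : S_KURVAL := Pool.Agent.W327.RK.l2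
theorem res : S_RES := Pool.Agent.W571.RK.l3
theorem struct : S_STRUCT := Pool.Agent.W571.RK.l4 kurval res
theorem herb : S_HERB := Pool.Agent.W327.RK.l5 struct
theorem tower : S_TOWER := Pool.Agent.W327.RK.l6 struct herb
theorem font : S_FONT := Pool.Agent.W803.RK.l7 struct
theorem kras : S_KRAS := Pool.Agent.W803.RK.l8 struct
theorem cyc : S_CYC := Pool.Agent.W327.RK.l9 kurval struct tower
theorem llt : S_LLT := Pool.Agent.W133.RK.l11 struct herb tower font kras cyc
theorem rest : S_REST := Pool.Agent.W402.RK.rest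
theorem lt : S_LT := Pool.Agent.W340.RK.lt rest llt
theorem frob : S_FROB := Pool.Agent.W327.RK.frob res struct rest
theorem conj : S_CONJ := Pool.Agent.W369.RK.conj
theorem hht : S_HT := Pool.Agent.W848.RK.ht conj
theorem roots : S_ROOTS := Pool.Agent.W402.RK.roots
theorem pow : S_POW := Pool.Agent.W402.RK.pow
theorem gl : S_GL := Pool.Agent.W369.RK.gl roots pow hht
theorem glf : S_GLF := Pool.Agent.W669.RK.glf pow hht
theorem cs : S_CS := Pool.Agent.W369.RK.cs gl lt
theorem bog : S_BOG := Pool.Agent.W402.RK.bog cs frob glf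
theorem fin : S_FIN := Pool.Agent.W402.RK.fin bog
theorem ki : S_KI := Pool.Agent.W540.RK.ki fin Pool.Agent.W402.RK.kd.1
theorem ks' : S_KS := ks gl lt ki Pool.Agent.W402.RK.kd.2
theorem main' : S_MAIN := main cs ks' bog

end Pool.Agent.W237.RK
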